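import Pool.Agent.Y247.LT.Mag

/-!
# The kinetic energy inequality with magnetic fields, for sub-orthonormal families
-/

set_option autoImplicit false

open MeasureTheory
open scoped ENNReal

namespace Pool.Agent.Results.MP_cfe56d_mp.MagneticFields

/-- The magnetic kinetic energy `∫ |(∇ - iA) u|²` of a `C¹` function. -/
noncomputable def energy {d : ℕ} (A : (Fin d → ℝ) → (Fin d → ℝ)) (u : (Fin d → ℝ) → ℂ) : ℝ≥0∞ :=
  ∫⁻ x, ∑ j : Fin d, ‖fderiv ℝ u x (Pi.single j 1) - Complex.I * ((A x j : ℝ) : ℂ) * u x‖ₑ ^ 2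

/-- The density `ρ = ∑ |u_n|²`. -/
noncomputable def density {d N : ℕ} (u : Fin N → (Fin d → ℝ) → ℂ) (x : Fin d → ℝ) : ℝ≥0∞ :=
  ∑ n, ‖u n x‖ₑ ^ 2

/-- `‖∑ c_n u_n‖² ≤ Λ ∑ |c_n|²` for all coefficients: the largest eigenvalue of the Gram matrix
of the family is at most `Λ` (`Λ = 1` for an orthonormal family). -/
def GramLE {d N : ℕ} (Λ : ℝ) (u : Fin N → (Fin d → ℝ) → ℂ) : Prop :=
  ∀ c : Fin N → ℂ, ∫ x, ‖∑ n, c n * u n x‖ ^ 2 ≤ Λ * ∑ n, ‖c n‖ ^ 2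

/-- The semiclassical constant `d / (d + 2) * (2π)² / ω_d ^ (2 / d)`. -/
noncomputable def Kcl (d : ℕ) : ℝ :=
  d / (d + 2) * ((2 * Real.pi) ^ 2 /
    (volume (Metric.ball (0 : EuclideanSpace ℝ (Fin d)) 1)).toReal ^ ((2 : ℝ) / d))

/-- In every dimension `d ≥ 1`, for every measurable magnetic vector potential `A` and every finite
family of `C¹` functions with compact support whose Gram matrix is at most `Λ`,
`(3/4) ^ (1/d) K_d^cl ∫ ρ ^ (1 + 2/d) ≤ Λ ^ (2/d) ∑ ∫ |(∇ - iA) u_n|²`. -/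
theorem result (d : ℕ) (hd : 1 ≤ d) (A : (Fin d → ℝ) → (Fin d → ℝ)) (hA : Measurable A)
    (N : ℕ) (u : Fin N → (Fin d → ℝ) → ℂ) (hu : ∀ n, ContDiff ℝ 1 (u n))
    (hc : ∀ n, HasCompactSupport (u n)) (Λ : ℝ) (hΛ : 0 < Λ) (hG : GramLE Λ u) :
    ENNReal.ofReal ((3 / 4) ^ (1 / (d : ℝ)) * Kcl d) * ∫⁻ x, density u x ^ (1 + 2 / (d : ℝ)) ≤
      ENNReal.ofReal (Λ ^ (2 / (d : ℝ))) * ∑ n, energy A (u n) :=
  Pool.Agent.Y247.LT.main2 hd u A hu hc hA hΛ hG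

end Pool.Agent.Results.MP_cfe56d_mp.MagneticFields
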