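import Pool.Agent.Y247.LT.Red3

/-!
# The kinetic energy inequality with the classical constant for densities integrated over one
direction, in every dimension
-/

set_option autoImplicit false

open MeasureTheory
open scoped ENNReal

namespace Pool.Agent.Results.MP_cfe56d_mp.ReducedDensity

/-- The point `(x, y)` of `ℝ × ℝ^k = ℝ^(k+1)`. -/
def pt {k : ℕ} (x : ℝ) (y : Fin k → ℝ) : Fin (k + 1) → ℝ := Fin.cons x y

/-- The kinetic energy `∫ |∂_x u|² + |(∇_y - iA(y)) u|²` of a `C¹` function on `ℝ × ℝ^k`, `A` being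
a vector potential on `ℝ^k`; for `A = 0` it is `∫ |∇u|²`. -/
noncomputable def energy {k : ℕ} (A : (Fin k → ℝ) → (Fin k → ℝ)) (u : (Fin (k + 1) → ℝ) → ℂ) :
    ℝ≥0∞ :=
  ∫⁻ z, (‖fderiv ℝ u z (Pi.single 0 1)‖ₑ ^ 2 + ∑ j : Fin k,
    ‖fderiv ℝ u z (Pi.single j.succ 1) - Complex.I * ((A (Fin.tail z) j : ℝ) : ℂ) * u z‖ₑ ^ 2)

/-- The density `ρ = ∑ |u_n|²`. -/
noncomputable def density {k N : ℕ} (u : Fin N → (Fin (k + 1) → ℝ) → ℂ)
    (z : Fin (k + 1) → ℝ) : ℝ≥0∞ :=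
  ∑ n, ‖u n z‖ₑ ^ 2

/-- The reduced density `ρ̄(y) = ∫ ρ(x, y) dx`. -/
noncomputable def reduced {k N : ℕ} (u : Fin N → (Fin (k + 1) → ℝ) → ℂ) (y : Fin k → ℝ) : ℝ≥0∞ :=
  ∫⁻ x : ℝ, density u (pt x y)

/-- Every line parallel to the first axis meets the set where some `u_n` does not vanish in a set
of measure at most `L`; for instance all `u_n` vanish outside the slab `0 < x < L`. -/
def WidthLE {k N : ℕ} (L : ℝ) (u : Fin N → (Fin (k + 1) → ℝ) → ℂ) : Prop :=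
  ∀ y : Fin k → ℝ, volume {x : ℝ | ∃ n, u n (pt x y) ≠ 0} ≤ ENNReal.ofReal L

/-- `‖∑ c_n u_n‖² ≤ Λ ∑ |c_n|²` for all coefficients: the largest eigenvalue of the Gram matrix
of the family is at most `Λ` (`Λ = 1` for an orthonormal family). -/
def GramLE {k N : ℕ} (Λ : ℝ) (u : Fin N → (Fin (k + 1) → ℝ) → ℂ) : Prop :=
  ∀ c : Fin N → ℂ, ∫ x, ‖∑ n, c n * u n x‖ ^ 2 ≤ Λ * ∑ n, ‖c n‖ ^ 2

/-- The semiclassical constant `d / (d + 2) * (2π)² / ω_d ^ (2 / d)`. -/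
noncomputable def Kcl (d : ℕ) : ℝ :=
  d / (d + 2) * ((2 * Real.pi) ^ 2 /
    (volume (Metric.ball (0 : EuclideanSpace ℝ (Fin d)) 1)).toReal ^ ((2 : ℝ) / d))

theorem energy_eq {k : ℕ} (A : (Fin k → ℝ) → (Fin k → ℝ)) (u : (Fin (k + 1) → ℝ) → ℂ) :
    energy A u = ∫⁻ z, Helper766.M.eT (Y247.LT.lift A) u z := by
  unfold energy Helper766.M.eT
  refine lintegral_congr fun z => ?_
  rw [Fin.sum_univ_succ]
  congr 1
  simp [Y247.LT.lift]

/-- For `d = k + 1`, `k ≥ 0`, every vector potential `A` on `ℝ^k` and every finite family of `C¹`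
functions `u_n` with compact support on `ℝ × ℝ^k`, of width at most `L` in the first direction and
with Gram matrix at most `Λ`, the reduced density `ρ̄` satisfies the kinetic energy inequality with
the classical constant: `K_d^cl L ^ (-2/d) ∫ ρ̄ ^ (1 + 2/d) dy ≤ Λ ^ (2/d) ∑ energy(u_n)`. -/
theorem result (k : ℕ) (A : (Fin k → ℝ) → (Fin k → ℝ)) (hA : Measurable A) (N : ℕ)
    (u : Fin N → (Fin (k + 1) → ℝ) → ℂ) (hu : ∀ n, ContDiff ℝ 1 (u n))
    (hc : ∀ n, HasCompactSupport (u n)) (L : ℝ) (hL : 0 < L) (hw : WidthLE L u)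
    (Λ : ℝ) (hΛ : 0 < Λ) (hG : GramLE Λ u) :
    ENNReal.ofReal (L ^ (-(2 / ((k + 1 : ℕ) : ℝ))) * Kcl (k + 1)) *
        ∫⁻ y, reduced u y ^ (1 + 2 / ((k + 1 : ℕ) : ℝ)) ≤
      ENNReal.ofReal (Λ ^ (2 / ((k + 1 : ℕ) : ℝ))) * ∑ n, energy A (u n) := by
  have h := Pool.Agent.Y247.LT.red_hom hL hu hc hw hΛ hG hA
  simp only [energy_eq]
  exact h

end Pool.Agent.Results.MP_cfe56d_mp.ReducedDensity
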